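import Mathlib
import Pool.Agent.W484.HS.Num
import Pool.Agent.W484.TB.Pair
import Pool.Agent.Y1.SC.Defs

/-!
# The conjecture of Hodge type for the products of abelian varieties with other varieties: definitions
-/

set_option autoImplicit false

open CategoryTheory AlgebraicGeometry

universe u v

namespace Pool.Agent.Q64.HT

open Polynomial Pool.Agent.H914 Pool.Agent.H914.VarClass Pool.Agent.H914.VarClass.Obj
  Pool.Agent.H914.WeilCohomology Pool.Agent.H281R3.HT Pool.Agent.W552 Pool.Agent.W484.HS
  Pool.Agent.Y1.CT

section

variable {k : Type u} [Field k] {𝒱 : VarClass k} {ops : CycleOps 𝒱}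

/-- The space of the elements of the algebra generated by `S`. -/
def algebraSpan (K : Type*) {R : Type*} [CommSemiring K] [Semiring R] [Algebra K R] (S : Set R) :
    Submodule K R := Subalgebra.toSubmodule (Algebra.adjoin K S)

/-- The classes of divisors on `X`. -/
def divisorClasses (W : WeilCohomology.{u, v} ops) (X : 𝒱.Obj) : Set (W.H X) :=
  {c | ∃ D, X.IsCyc 1 D ∧ c = W.cl X D}

/-- The linear combinations, with coefficients in the coefficient field of the cohomology, of the
products of classes of divisors on `X` (with the unit element). -/
def lefschetzSpan (W : WeilCohomology.{u, v} ops) (X : 𝒱.Obj) : Submodule W.K (W.H X) :=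
  algebraSpan W.K (divisorClasses W X)

/-- The class of the cycle `z` is a combination of products of classes of divisors. -/
def IsLefschetz (W : WeilCohomology.{u, v} ops) (X : 𝒱.Obj) (z : X.Cycles) : Prop :=
  W.cl X z ∈ lefschetzSpan W X

/-- The class of the cycle `z` is zero. -/
def HomZero (W : WeilCohomology.{u, v} ops) (X : 𝒱.Obj) (z : X.Cycles) : Prop := W.cl X z = 0

/-- The intersection number `z · z · D ^ (n - 2 j)`, `n = dim X`, has the sign `(-1) ^ j`. -/
def PositiveCycle (ops : CycleOps 𝒱) (X : 𝒱.Obj) (D : X.Cycles) (j : ℕ) (z : X.Cycles) : Prop :=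
  0 < (-1 : ℚ) ^ j * X.V.degCycle (ops.mul z (divPow ops D (X.dim - 2 * j) z))

/-- The statement of the conjecture of Hodge type for the cycles generated by divisors: for
`2 j ≤ n = dim X` and every cycle `z` of codimension `j` whose class is a combination of products of
classes of divisors, is primitive (the class of `D ^ (n - 2 j + 1) z` is zero) and is not zero, the
sign of the intersection number `z · z · D ^ (n - 2 j)` is `(-1) ^ j`. -/
def LefschetzPositive (W : WeilCohomology.{u, v} ops) (X : 𝒱.Obj) (D : X.Cycles) : Prop :=
  ∀ j, 2 * j ≤ X.dim → ∀ z, X.IsCyc j z → IsLefschetz W X z →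
    HomZero W X (divPow ops D (X.dim - 2 * j + 1) z) → ¬ HomZero W X z → PositiveCycle ops X D j z

/-- `A.X` with the Frobenius endomorphism `f` behaves like an abelian variety over the field with
`q ^ s` elements, isogenous to a product of powers of abelian varieties which come from the field
with `q` elements and have the characteristic polynomials of Frobenius `F i` over this field, with
the ample divisor `A.D` (`IsAbelianFrobenius`: the cohomology is generated by `H^1`, which is
spanned by eigenvectors of Frobenius with eigenvalues `z ^ s`, `z` a root of some `F i`; the Tate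
conjecture holds for divisors; Frobenius acts on cycles of codimension `j` as `q ^ (s j)`, over some
finite extension). The hard Lefschetz theorem holds, and the intersection forms are positive on the
primitive classes that are generated by classes of divisors: this is known for all abelian varieties,
the sign is `(-1) ^ j` for the primitive classes of codimension `j` (Weil, Milne). -/
structure IsPolarizedAbelian (W : WeilCohomology.{u, v} ops) (q s : ℕ) {I : Type} (F : I → ℤ[X])
    (A : Polarized 𝒱) (f : A.X ⟶ A.X) : Prop where
  frobenius : IsAbelianFrobenius W q s F A f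
  hardLefschetz : HardLefschetz W A.X A.D
  positive : LefschetzPositive W A.X A.D

end

/-- The eigenvalues of `f` are roots of a nonzero polynomial with rational coefficients which has the
property `P`. -/
def EigenvaluesIn (P : ℚ[X] → Prop) {F R : Type*} [Field F] [CharZero F] [Ring R] [Algebra F R]
    (f : R →ₐ[F] R) : Prop :=
  ∃ χ : ℚ[X], χ ≠ 0 ∧ (∀ (ρ : F) (c : R), c ≠ 0 → f c = ρ • c → aeval ρ χ = 0) ∧ P χ

/-- The complex roots of `χ` are unrelated to the fields `K i`. -/
def UnrelatedRoots {I : Type} (K : I → Type) [∀ i, Field (K i)] (χ : ℚ[X]) : Prop :=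
  ∀ ρ : ℂ, aeval ρ χ = 0 → Unrelated K ρ

/-- The complex roots of `χ` lie, up to powers, in a group generated by the nonzero elements of the
number field `E` and `r` numbers. -/
def RootsOfRank (E : IntermediateField ℚ ℂ) (r : ℕ) (χ : ℚ[X]) : Prop :=
  Pool.Agent.W484.TB.RankLEOver E r {ρ : ℂ | aeval ρ χ = 0}

/-- `HodgeTypeTimes P q F`: the following holds for every algebraically closed field `k`, every class
`𝒱` of smooth projective varieties over `k` closed under products, every Weil cohomology `W` with
algebraically closed coefficient field, every polarized abelian variety `A` as in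
`IsPolarizedAbelian`, every variety `Z.X` with a Frobenius endomorphism `g` relative to the same field
such that the eigenvalues of `g` on the cohomology are roots of a polynomial with the property `P`,
and every divisor `Z.D` on `Z.X` which satisfies the hard Lefschetz theorem: the standard conjecture of
Hodge type holds for `A.X × Z.X` and the divisor `A.D × Z.X + A.X × Z.D` if and only if it holds for
`Z.X` and `Z.D`. -/
def HodgeTypeTimes (P : ℚ[X] → Prop) (q : ℕ) {I : Type} (F : I → ℤ[X]) : Prop :=
  ∀ (k : Type) [Field k] [IsAlgClosed k] (𝒱 : VarClass k) (ops : CycleOps 𝒱)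
    (W : WeilCohomology.{0, 0} ops) [IsAlgClosed W.K] (s : ℕ), 0 < s →
    ∀ (A Z : Polarized 𝒱) (f : A.X ⟶ A.X) (g : Z.X ⟶ Z.X),
      IsPolarizedAbelian W q s F A f → EigenvaluesIn P (W.map g) →
      FrobeniusOnCycles W (A.X.prod Z.X) (pairMap f g) (q ^ s) →
      Z.X.IsCyc 1 Z.D → HardLefschetz W Z.X Z.D →
      (HodgeType W (A.prod ops Z).X (A.prod ops Z).D ↔ HodgeType W Z.X Z.D)

end Pool.Agent.Q64.HT
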