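import Mathlib
import Pool.Agent.Q64.HT.Defs
import Pool.Agent.TH132.A.HMain
import Pool.Agent.Y1.SC.Main
import Pool.Agent.W484.TB.Sieve

/-!
# The conjecture of Hodge type for the products of abelian varieties with other varieties: proofs
-/

set_option autoImplicit false
set_option linter.unusedSectionVars false
set_option linter.unusedVariables false

open CategoryTheory AlgebraicGeometry

universe u v

namespace Pool.Agent.Q64.HT

open Module Polynomial Pool.Agent.H914 Pool.Agent.H914.VarClass Pool.Agent.H914.VarClass.Obj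
  Pool.Agent.H914.WeilCohomology Pool.Agent.H281R3.HT Pool.Agent.W552 Pool.Agent.W484.HS
  Pool.Agent.TH132.A Pool.Agent.Y1.CT

variable {k : Type u} [Field k] {𝒱 : VarClass k} {ops : CycleOps 𝒱}
  {W : WeilCohomology.{u, v} ops}

section lef

variable {X : 𝒱.Obj}

theorem one_mem_lef : (1 : W.H X) ∈ lefschetzSpan W X := Subalgebra.one_mem _

theorem mul_mem_lef {a b : W.H X} (ha : a ∈ lefschetzSpan W X) (hb : b ∈ lefschetzSpan W X) :
    a * b ∈ lefschetzSpan W X := Subalgebra.mul_mem _ ha hb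

/-- The algebraic classes of degree two are combinations of classes of divisors. -/
theorem lef_of_degree_two {c : W.H X} (hc : c ∈ W.gr X 2) (ha : c ∈ algSpan W X) :
    c ∈ lefschetzSpan W X := by
  have key : ∀ y ∈ algSpan W X, proj (W.isInternal X) 2 y ∈ lefschetzSpan W X := by
    intro y hy
    refine Submodule.span_induction (p := fun y _ => proj (W.isInternal X) 2 y ∈
      lefschetzSpan W X) ?_ ?_ ?_ ?_ hy
    · intro x hx
      obtain ⟨j, hj⟩ := Set.mem_iUnion.1 hx
      obtain ⟨z, hz, rfl⟩ := hj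
      have h1 := W.cl_mem hz
      by_cases hj1 : j = 1
      · subst hj1
        rw [proj_same _ h1]
        exact Algebra.subset_adjoin ⟨z, hz, rfl⟩
      · rw [proj_ne _ h1 (by omega)]
        exact Submodule.zero_mem _
    · rw [map_zero]
      exact Submodule.zero_mem _
    · intro x y _ _ hx hy
      rw [map_add]
      exact Submodule.add_mem _ hx hy
    · intro t x _ hx
      rw [map_smul]
      exact Submodule.smul_mem _ _ hx
  have h1 := key c ha
  rwa [proj_same _ hc] at h1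

/-- **All classes of cycles are generated by divisors.** -/
theorem alg_mem_lef {q s : ℕ} (hq : q ≠ 0) {I : Type} {F : I → ℤ[X]} {A : Polarized 𝒱}
    {f : A.X ⟶ A.X} (hA : IsAbelianFrobenius W q s F A f)
    (hpair : ExactPairK (fun z : {z : W.K // ∃ i, aeval z (F i) = 0} => (z : W.K) ^ s)
      ((q : W.K) ^ s) 1) (j : ℕ) (z) (hz : A.X.IsCyc j z) :
    W.cl A.X z ∈ lefschetzSpan W A.X := by
  classical
  set Q : W.K := (q : W.K) ^ s with hQ
  have hQ0 : Q ≠ 0 := pow_ne_zero _ (by exact_mod_cast hq)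
  let val : {z : W.K // ∃ i, aeval z (F i) = 0} → W.K := fun z => (z : W.K) ^ s
  obtain ⟨r, b, hb⟩ := exists_list_basis (W.map f) val (W.gr A.X 1) (eigen_span hA) hA.generated
  choose L hL hLb using hb
  have hα : ∀ t, W.map f (b t) = ((L t).map (fun e => val e.2)).prod • b t := by
    intro t
    rw [hLb]
    exact Pool.Agent.W484.HS.map_list_prod (W.map f) val (L t) fun e he => (hL t e he).2
  set α : Fin r → W.K := fun t => ((L t).map (fun e => val e.2)).prod with hαdef
  obtain ⟨m, hm, hm'⟩ := hA.cycles j z hz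
  have hpull : ∀ (m : ℕ) (z : A.X.Cycles), W.cl _ ((ops.pull f)^[m] z) =
      (W.map f)^[m] (W.cl _ z) := by
    intro m
    induction m with
    | zero => intro z; rfl
    | succ m ih =>
      intro z
      rw [Function.iterate_succ_apply', Function.iterate_succ_apply', W.cl_pull, ih]
  rw [hpull] at hm'
  have hc : ∀ t, α t ^ m * b.repr (W.cl A.X z) t = (Q ^ j) ^ m * b.repr (W.cl A.X z) t := by
    intro t
    have h1 : (W.map f)^[m] (W.cl A.X z) =
        ∑ t, (α t ^ m * b.repr (W.cl A.X z) t) • b t := by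
      conv_lhs => rw [← b.sum_repr (W.cl A.X z)]
      rw [iter_linear, map_sum]
      refine Finset.sum_congr rfl fun t _ => ?_
      rw [map_smul, ← iter_linear]
      have h2 := iter_scale f (α t) 1 m (a := b t) (by simpa using hα t)
      rw [one_mul] at h2
      rw [h2, smul_smul, mul_comm]
    have h3 : (W.map f)^[m] (W.cl A.X z) =
        ∑ t, ((Q ^ j) ^ m * b.repr (W.cl A.X z) t) • b t := by
      rw [hm']
      conv_lhs => rw [← b.sum_repr (W.cl A.X z)]
      rw [Finset.smul_sum]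
      refine Finset.sum_congr rfl fun t _ => ?_
      rw [smul_smul]
      congr 2
      rw [hQ]
      push_cast
      ring
    have h4 := h1.symm.trans h3
    have h5 := congrArg (fun y => b.repr y t) h4
    simpa [Finsupp.single_apply] using h5
  rw [← b.sum_repr (W.cl A.X z)]
  refine Submodule.sum_mem _ fun t _ => ?_
  by_cases h0 : b.repr (W.cl A.X z) t = 0
  · rw [h0, zero_smul]
    exact Submodule.zero_mem _
  refine Submodule.smul_mem _ _ ?_
  have h1 : α t ^ m = (Q ^ j) ^ m := mul_right_cancel₀ h0 (hc t)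
  rw [hLb t]
  refine list_mem (W.map f) val Q 1 hQ0 hpair (lefschetzSpan W A.X) one_mem_lef
    (fun a ha b hb => mul_mem_lef ha hb) (W.gr A.X 1 : Set (W.H A.X)) ?_ ?_ (L t).length
    (j : ℤ) m hm (L t) rfl (hL t) ?_
  · intro a ha b hb
    rw [W.comm ha hb]
    simp
  · intro a ha b hb x y hx hy hxy
    have h2 : a * b ∈ W.gr A.X 2 := W.mul_mem ha hb
    refine lef_of_degree_two h2 (hA.tate _ h2 ?_)
    rw [map_mul, hx, hy, smul_mul_smul_comm, hxy]
  · rw [mul_one, zpow_natCast]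
    exact h1

end lef

/-- The relations, for the powers `s > 0`. -/
def Pairs (P : ℚ[X] → Prop) (q : ℕ) {I : Type} (F : I → ℤ[X]) : Prop :=
  P (Polynomial.X - 1) ∧ ∀ (K : Type v) [Field K] [CharZero K] (s : ℕ), 0 < s → ∀ χ : ℚ[X], χ ≠ 0 →
    P χ → ∀ ρ : K, aeval ρ χ = 0 →
      ExactPairK (fun z : {z : K // ∃ i, aeval z (F i) = 0} => (z : K) ^ s) ((q : K) ^ s) ρ

section main

variable {q : ℕ} (hq : 1 < q) {I : Type} {F : I → ℤ[X]} {P : ℚ[X] → Prop} (hP : Pairs.{v} P q F)

include hq hP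

theorem pair_one {s : ℕ} (hs : 0 < s) :
    ExactPairK (fun z : {z : W.K // ∃ i, aeval z (F i) = 0} => (z : W.K) ^ s)
      ((q : W.K) ^ s) 1 :=
  hP.2 W.K s hs _ (by
    have := Polynomial.X_sub_C_ne_zero (1 : ℚ)
    rwa [map_one] at this) hP.1 1 (by rw [map_sub, aeval_X, map_one, sub_self])

theorem homEqNum_abelian {s : ℕ} (hs : 0 < s) {A : Polarized 𝒱} {f : A.X ⟶ A.X}
    (hA : IsAbelianFrobenius W q s F A f) : HomEqNum W A.X := by
  refine homEqNum_gen (Z := {z : W.K // ∃ i, aeval z (F i) = 0}) f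
    (fun z => (z : W.K) ^ s) (q ^ s) (pow_ne_zero _ (by omega)) hA.divisor hA.degree hA.cycles
    hA.generated (eigen_span hA) ?_ ?_
  · intro c hc hc'
    refine hA.tate c hc ?_
    rw [hc']
    push_cast
    rfl
  · have h1 := pair_one (W := W) hq hP hs
    push_cast
    exact h1

theorem alg_mem_mix [IsAlgClosed W.K] {Z : 𝒱.Obj} {s : ℕ} (hs : 0 < s) {A : Polarized 𝒱}
    {f : A.X ⟶ A.X} (hA : IsAbelianFrobenius W q s F A f) {g : Z ⟶ Z}
    (hZ : EigenvaluesIn P (W.map g))
    (hF : FrobeniusOnCycles W (A.X.prod Z) (pairMap f g) (q ^ s)) (i : ℕ) (z)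
    (hz : (A.X.prod Z).IsCyc i z) : W.cl (A.X.prod Z) z ∈ mixSpan W A.X Z := by
  obtain ⟨χ, hχ, hχ0, hrank⟩ := hZ
  obtain ⟨m, hm, hm'⟩ := hF i z hz
  have hpull : ∀ (m : ℕ) (z : (A.X.prod Z).Cycles), W.cl _ ((ops.pull (pairMap f g))^[m] z) =
      (W.map (pairMap f g))^[m] (W.cl _ z) := by
    intro m
    induction m with
    | zero => intro z; rfl
    | succ m ih =>
      intro z
      rw [Function.iterate_succ_apply', Function.iterate_succ_apply', W.cl_pull, ih]
  rw [hpull] at hm'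
  have hQ : (q : W.K) ^ s ≠ 0 := pow_ne_zero _ (Nat.cast_ne_zero.2 (by omega))
  refine mem_mixSpan (Z := {z : W.K // ∃ i, aeval z (F i) = 0}) f g
    (fun z => (z : W.K) ^ s) ((q : W.K) ^ s) hQ hA.generated (eigen_span hA) hA.tate ?_ m i hm _ ?_
  · intro ρ hρ
    obtain ⟨v, hv⟩ := hρ.exists_hasEigenvector
    exact hP.2 W.K s hs χ hχ hrank ρ (hχ0 ρ v hv.2 hv.apply_eq_smul)
  · rw [hm']
    congr 1
    push_cast
    rw [← pow_mul, mul_comm m i]
    ring

/-- **The conjecture of Hodge type for the product.** -/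
theorem hodge_iff [IsAlgClosed W.K] {s : ℕ} (hs : 0 < s) {A Z : Polarized 𝒱} {f : A.X ⟶ A.X}
    {g : Z.X ⟶ Z.X} (hA : IsPolarizedAbelian W q s F A f) (hZ : EigenvaluesIn P (W.map g))
    (hF : FrobeniusOnCycles W (A.X.prod Z.X) (pairMap f g) (q ^ s)) (hB : Z.X.IsCyc 1 Z.D)
    (hHL : HardLefschetz W Z.X Z.D) :
    HodgeType W (A.prod ops Z).X (A.prod ops Z).D ↔ HodgeType W Z.X Z.D := by
  have hnum : HomEqNum W A.X := homEqNum_abelian hq hP hs hA.frobenius
  have hmix : ∀ z, AS W (A.X.prod Z.X) z → z ∈ mixSpan W A.X Z.X := by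
    intro z hz
    refine AS.ind (p := fun z => z ∈ mixSpan W A.X Z.X) ?_
      (fun x y hx hy => Submodule.add_mem _ hx hy) hz
    rintro c _ ⟨z, hz, rfl⟩
    exact alg_mem_mix hq hP hs hA.frobenius hZ hF c z hz
  have hH : HodgeType W A.X A.D := fun j hj z hz h1 h2 =>
    hA.positive j hj z hz (alg_mem_lef (by omega) hA.frobenius (pair_one (W := W) hq hP hs) j z hz)
      h1 h2
  have h1 : (1 : W.H A.X) ≠ 0 := one_ne_of_deg hA.frobenius.divisor hA.frobenius.degree
  obtain ⟨f', F', hf'⟩ := exists_lw hA.frobenius.divisor hA.hardLefschetz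
  obtain ⟨g', G', hg'⟩ := exists_lw hB hHL
  have hst : Stable W A.X f' := stable_of_lefschetzA F'.hD F'.sl2
    (lefschetzA_of_D F'.hD F'.hl hnum)
  exact ⟨fun h => hodge_of_prod F' G' hH h1 h, fun h => hodge_prod_of
    (fun z hz => mem_tens hnum hz (hmix z hz)) F' hf' F'.hl hst hH G' hg' h⟩

end main

end Pool.Agent.Q64.HT

namespace Pool.Agent.Q64.HT

open Module Polynomial Pool.Agent.H914 Pool.Agent.H914.VarClass Pool.Agent.H914.VarClass.Obj
  Pool.Agent.H914.WeilCohomology Pool.Agent.H281R3.HT Pool.Agent.W552 Pool.Agent.W484.HS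
  Pool.Agent.TH132.A Pool.Agent.Y1.CT Pool.Agent.W484.AA Pool.Agent.W484.TB
  Pool.Agent.W521.Frob Pool.Agent.W521.Count Pool.Agent.W521.Bad Pool.Agent.W521.Descent
  Pool.Agent.W521.Density

theorem pairs_unrelated {I : Type} {K : I → Type} [∀ i, Field (K i)] {q : ℕ} {F : I → ℤ[X]}
    (hR : NoRel F q (Unrelated K)) : Pairs.{v} (UnrelatedRoots K) q F := by
  refine ⟨fun ρ hρ => ?_, ?_⟩
  · rw [map_sub, aeval_X, map_one, sub_eq_zero] at hρ
    rw [hρ]
    exact hR.one
  · intro L _ _ s hs χ hχ hrank ρ hρ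
    exact Pool.Agent.Y1.CT.exactPair_field F hR.monic q s χ hχ (fun ρ hρ => hR.pair s hs ρ (hrank ρ hρ)) ρ hρ

theorem hodgeTypeTimes_unrelated {I : Type} {K : I → Type} [∀ i, Field (K i)] {q : ℕ}
    (hq : 1 < q) {F : I → ℤ[X]} (hR : NoRel F q (Unrelated K)) :
    HodgeTypeTimes (UnrelatedRoots K) q F := by
  intro k _ _ 𝒱 ops W _ s hs A Z f g hA hZ hF hB hHL
  exact hodge_iff hq (pairs_unrelated hR) hs hA hZ hF hB hHL

theorem pairs_rank {I : Type} [Finite I] (g : I → ℕ) (E : IntermediateField ℚ ℂ)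
    [FiniteDimensional ℚ E] {q : ℕ} (hq : 1 < q) (r : ℕ) (hr : ∀ i, r < g i)
    (x : (Σ i, Fin (g i)) → ℤ) (hx : GoodU (splitPrimes E) g q x) :
    Pairs.{v} (RootsOfRank E r) q (fun i => weil q (polys g x i)) := by
  refine ⟨Pool.Agent.W484.CH.rank_one E r, ?_⟩
  intro L _ _ s hs χ hχ hrank ρ hρ
  exact exactPair_field_over g E (by omega) r hr x hx s hs χ hχ hrank ρ hρ

theorem hodgeTypeTimes_rank {I : Type} [Finite I] (g : I → ℕ) (E : IntermediateField ℚ ℂ)
    [FiniteDimensional ℚ E] {q : ℕ} (hq : 1 < q) (r : ℕ) (hr : ∀ i, r < g i)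
    (x : (Σ i, Fin (g i)) → ℤ) (hx : GoodU (splitPrimes E) g q x) :
    HodgeTypeTimes (RootsOfRank E r) q (fun i => weil q (polys g x i)) := by
  intro k _ _ 𝒱 ops W _ s hs A Z f g' hA hZ hF hB hHL
  exact hodge_iff hq (pairs_rank g E hq r hr x hx) hs hA hZ hF hB hHL

end Pool.Agent.Q64.HT
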